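import Mathlib
import Pool.Agent.H381R4.BP.Stubs

set_option autoImplicit false
open MeasureTheory Matrix Filter Topology
open scoped ENNReal BigOperators Pointwise

namespace Pool.Agent.H404BP
open Pool.Agent.H381CM Pool.Agent.H381BP

lemma vol_slice {d : ℕ} (K : Set (V d)) (hconv : Convex ℝ K) (h0 : (0 : V d) ∈ interior K)
    (hK0 : volume K ≠ 0) (t : ℝ) (ht : 0 ≤ t) :
    volume (K ∩ {x | t • x ∈ K}) = min (volume K) (volume K / ENNReal.ofReal (t ^ d)) := by
  have h0K : (0 : V d) ∈ K := interior_subset h0
  rcases le_or_gt t 1 with h1 | h1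
  · have e : K ∩ {x | t • x ∈ K} = K := by
      ext x
      simp only [Set.mem_inter_iff, Set.mem_setOf_eq, and_iff_left_iff_imp]
      intro hx
      have := hconv h0K hx (show (0:ℝ) ≤ 1 - t by linarith) ht (by ring)
      simpa using this
    rw [e]
    refine (min_eq_left ?_).symm
    rw [ENNReal.le_div_iff_mul_le (Or.inr hK0) (Or.inl ENNReal.ofReal_ne_top)]
    calc volume K * ENNReal.ofReal (t ^ d) ≤ volume K * 1 := by
          gcongr
          exact ENNReal.ofReal_le_one.2 (pow_le_one₀ ht h1)
      _ = volume K := mul_one _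
  · have ht0 : 0 < t := by linarith
    have e : K ∩ {x | t • x ∈ K} = (fun x : V d => t • x) ⁻¹' K := by
      ext x
      simp only [Set.mem_inter_iff, Set.mem_setOf_eq, Set.mem_preimage, and_iff_right_iff_imp]
      intro hx
      have hle : t⁻¹ ≤ 1 := inv_le_one_of_one_le₀ h1.le
      have := hconv h0K hx (show (0:ℝ) ≤ 1 - t⁻¹ by linarith) (by positivity : (0:ℝ) ≤ t⁻¹)
        (by ring)
      simpa [smul_smul, inv_mul_cancel₀ ht0.ne'] using this
    rw [e, MeasureTheory.Measure.addHaar_preimage_smul _ ht0.ne']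
    have hf : Module.finrank ℝ (V d) = d := by simp [V]
    rw [hf, abs_of_pos (by positivity)]
    have e2 : ENNReal.ofReal ((t ^ d)⁻¹) * volume K = volume K / ENNReal.ofReal (t ^ d) := by
      rw [ENNReal.ofReal_inv_of_pos (by positivity), mul_comm, div_eq_mul_inv]
    rw [e2]
    refine (min_eq_right ?_).symm
    refine ENNReal.div_le_of_le_mul ?_
    calc volume K = volume K * 1 := (mul_one _).symm
      _ ≤ volume K * ENNReal.ofReal (t ^ d) := by
          gcongr
          rw [← ENNReal.ofReal_one]
          exact ENNReal.ofReal_le_ofReal (one_le_pow₀ h1.le)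

theorem T_BTE : S_RAD → S_BTE := by
  intro hR d m hm hmd K hKm hconv h0 hKt
  have hK0 : volume K ≠ 0 := by
    have : 0 < volume (interior K) := isOpen_interior.measure_pos _ ⟨0, h0⟩
    exact (lt_of_lt_of_le this (measure_mono interior_subset)).ne'
  have hmeasS : MeasurableSet {q : V d × E m | ‖q.2‖ • q.1 ∈ K} := by
    have hf : Measurable (fun q : V d × E m => ‖q.2‖ • q.1) :=
      (measurable_snd.norm).smul measurable_fst
    exact hf hKm
  have h1 : ∀ x : V d, hh m K x =
      ∫⁻ v : E m, Set.indicator {q : V d × E m | ‖q.2‖ • q.1 ∈ K} (fun _ => (1 : ℝ≥0∞)) (x, v) := by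
    intro x
    have hmx : MeasurableSet {v : E m | ‖v‖ • x ∈ K} := by
      have hf : Measurable (fun v : E m => ‖v‖ • x) := measurable_norm.smul_const x
      exact hf hKm
    rw [hh, ← lintegral_indicator_one hmx]
    refine lintegral_congr fun v => ?_
    by_cases hv : ‖v‖ • x ∈ K
    · simp [Set.indicator, hv]
    · simp [Set.indicator, hv]
  have h2 : ∫⁻ x in K, hh m K x =
      ∫⁻ v : E m, min (volume K) (volume K / ENNReal.ofReal (‖v‖ ^ d)) := by
    calc ∫⁻ x in K, hh m K x
        = ∫⁻ x in K, ∫⁻ v : E m, Set.indicator {q : V d × E m | ‖q.2‖ • q.1 ∈ K}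
            (fun _ => (1 : ℝ≥0∞)) (x, v) := by
          refine lintegral_congr fun x => h1 x
      _ = ∫⁻ v : E m, ∫⁻ x in K, Set.indicator {q : V d × E m | ‖q.2‖ • q.1 ∈ K}
            (fun _ => (1 : ℝ≥0∞)) (x, v) := by
          apply lintegral_lintegral_swap
          exact (measurable_const.indicator hmeasS).aemeasurable
      _ = ∫⁻ v : E m, min (volume K) (volume K / ENNReal.ofReal (‖v‖ ^ d)) := by
          refine lintegral_congr fun v => ?_
          rw [← vol_slice K hconv h0 hK0 ‖v‖ (norm_nonneg v)]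
          have hmv : MeasurableSet {x : V d | ‖v‖ • x ∈ K} := by
            have hf : Measurable (fun x : V d => ‖v‖ • x) := measurable_const_smul _
            exact hf hKm
          have : ∀ x : V d, Set.indicator {q : V d × E m | ‖q.2‖ • q.1 ∈ K}
              (fun _ => (1 : ℝ≥0∞)) (x, v) = Set.indicator {x : V d | ‖v‖ • x ∈ K} 1 x := by
            intro x
            by_cases hx : ‖v‖ • x ∈ K
            · simp [Set.indicator, hx]
            · simp [Set.indicator, hx]
          simp_rw [this]
          rw [lintegral_indicator_one hmv, Measure.restrict_apply hmv, Set.inter_comm]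
  rw [h2, hR d m hm hmd _ _ hK0 hKt hK0 hKt, mul_assoc, ← ENNReal.rpow_add _ _ hK0 hKt]
  simp

end Pool.Agent.H404BP
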